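import Pool.Agent.W4.CF.Stms

/-!
# CF-RAD: the sum of the inverses of the prime-to-`m` radicals
-/

set_option autoImplicit false

namespace Pool.W335.CF

open Finset Pool.Agent.W4.CF

lemma radp_mul_cop (m : ℕ) {a b : ℕ} (h : Nat.Coprime a b) :
    radp m (a * b) = radp m a * radp m b := by
  unfold radp
  rw [h.primeFactors_mul, Finset.filter_union, Finset.prod_union]
  exact Finset.disjoint_filter_filter h.disjoint_primeFactors

lemma radp_pp (m : ℕ) {p k : ℕ} (hp : p.Prime) (hk : k ≠ 0) :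
    radp m (p ^ k) = if p ∣ m then 1 else p := by
  unfold radp
  rw [Nat.primeFactors_prime_pow hk hp, Finset.filter_singleton]
  by_cases h : p ∣ m
  · simp [h]
  · simp [h]

lemma radp_one (m : ℕ) : radp m 1 = 1 := by simp [radp]

lemma radp_pos (m n : ℕ) : 0 < radp m n := by
  unfold radp
  exact Finset.prod_pos fun p hp =>
    (Nat.prime_of_mem_primeFactors (Finset.mem_filter.1 hp).1).pos

/-- the multiplicative function `n ^ (-ε) / radp m n` -/
noncomputable def ff (m : ℕ) (ε : ℝ) (n : ℕ) : ℝ := (n : ℝ) ^ (-ε) / radp m n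

lemma ff_one (m : ℕ) (ε : ℝ) : ff m ε 1 = 1 := by simp [ff, radp_one]

lemma ff_mul (m : ℕ) (ε : ℝ) {a b : ℕ} (h : Nat.Coprime a b) :
    ff m ε (a * b) = ff m ε a * ff m ε b := by
  unfold ff
  rw [radp_mul_cop m h]
  push_cast
  rw [Real.mul_rpow (by positivity) (by positivity), mul_div_mul_comm]

lemma ff_nonneg (m : ℕ) (ε : ℝ) (n : ℕ) : 0 ≤ ff m ε n := by unfold ff; positivity

lemma pp_pow (ε : ℝ) (p n : ℕ) : ((p ^ n : ℕ) : ℝ) ^ (-ε) = ((p : ℝ) ^ (-ε)) ^ n := by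
  push_cast
  rw [← Real.rpow_natCast ((p : ℝ) ^ (-ε)) n, ← Real.rpow_natCast (p : ℝ) n,
    ← Real.rpow_mul (by positivity), ← Real.rpow_mul (by positivity), mul_comm (n : ℝ) (-ε)]

/-- `1` if `p ∣ m`, `p⁻¹` otherwise -/
noncomputable def cf (m p : ℕ) : ℝ := if p ∣ m then 1 else (p : ℝ)⁻¹

lemma ff_pp (m : ℕ) (ε : ℝ) {p : ℕ} (hp : p.Prime) (n : ℕ) :
    ff m ε (p ^ n) = cf m p * ((p : ℝ) ^ (-ε)) ^ n + (if n = 0 then 1 - cf m p else 0) := by
  have hp0 : (p : ℝ) ≠ 0 := by exact_mod_cast hp.ne_zero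
  rcases Nat.eq_zero_or_pos n with h | h
  · subst h
    simp [ff_one]
  · rw [if_neg (by omega), add_zero]
    unfold ff
    rw [radp_pp m hp (by omega), pp_pow]
    unfold cf
    split_ifs
    · simp
    · field_simp

lemma hasSum_ff (m : ℕ) (ε : ℝ) (hε : 0 < ε) {p : ℕ} (hp : p.Prime) :
    HasSum (fun n : ℕ => ff m ε (p ^ n))
      (cf m p * (1 - (p : ℝ) ^ (-ε))⁻¹ + (1 - cf m p)) := by
  have hx0 : 0 ≤ (p : ℝ) ^ (-ε) := by positivity
  have hp1 : (1 : ℝ) < p := by exact_mod_cast hp.one_lt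
  have hx1 : (p : ℝ) ^ (-ε) < 1 := Real.rpow_lt_one_of_one_lt_of_neg hp1 (by linarith)
  have h1 := (hasSum_geometric_of_lt_one hx0 hx1).mul_left (cf m p)
  have h2 : HasSum (fun n : ℕ => if n = 0 then 1 - cf m p else 0) (1 - cf m p) := by
    have := hasSum_ite_eq (0 : ℕ) (1 - cf m p)
    simpa using this
  have h3 := h1.add h2
  refine h3.congr_fun ?_
  intro n
  exact ff_pp m ε hp n

lemma local_le (m : ℕ) (ε : ℝ) (hε : 0 < ε) {p : ℕ} (hp : p.Prime) :
    ∑' n : ℕ, ff m ε (p ^ n) ≤ (if p ∣ m then (1 - (2 : ℝ) ^ (-ε))⁻¹ else 1) *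
      Real.exp ((1 - (2 : ℝ) ^ (-ε))⁻¹ * (p : ℝ) ^ (-(1 + ε))) := by
  rw [(hasSum_ff m ε hε hp).tsum_eq]
  have hp2 : (2 : ℝ) ≤ p := by exact_mod_cast hp.two_le
  have hp0 : (0 : ℝ) < p := by linarith
  have hx0 : 0 < (p : ℝ) ^ (-ε) := by positivity
  have hp1 : (1 : ℝ) < p := by linarith
  have hx1 : (p : ℝ) ^ (-ε) < 1 := Real.rpow_lt_one_of_one_lt_of_neg hp1 (by linarith)
  have hy1 : (2 : ℝ) ^ (-ε) < 1 := Real.rpow_lt_one_of_one_lt_of_neg (by norm_num) (by linarith)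
  have hxy : (p : ℝ) ^ (-ε) ≤ (2 : ℝ) ^ (-ε) :=
    Real.rpow_le_rpow_of_nonpos (by norm_num) hp2 (by linarith)
  have hsplit : (p : ℝ) ^ (-(1 + ε)) = (p : ℝ)⁻¹ * (p : ℝ) ^ (-ε) := by
    rw [neg_add, Real.rpow_add hp0, Real.rpow_neg_one]
  rw [hsplit]
  set x := (p : ℝ) ^ (-ε) with hx
  set y := (2 : ℝ) ^ (-ε) with hy
  have h1 : (1 - x)⁻¹ ≤ (1 - y)⁻¹ := inv_anti₀ (by linarith) (by linarith)
  have hyp : 0 < (1 - y)⁻¹ := inv_pos.2 (by linarith)
  unfold cf
  split_ifs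
  · rw [one_mul, sub_self, add_zero]
    refine h1.trans ?_
    refine le_mul_of_one_le_right hyp.le ?_
    have h5 : 0 ≤ (1 - y)⁻¹ * ((p : ℝ)⁻¹ * x) := mul_nonneg hyp.le (by positivity)
    linarith [Real.add_one_le_exp ((1 - y)⁻¹ * ((p : ℝ)⁻¹ * x))]
  · rw [one_mul]
    have h2 : (p : ℝ)⁻¹ * (1 - x)⁻¹ + (1 - (p : ℝ)⁻¹) = 1 + (p : ℝ)⁻¹ * (x * (1 - x)⁻¹) := by
      have : (1 - x) ≠ 0 := by linarith
      field_simp
      ring
    rw [h2]
    have h3 : 1 + (p : ℝ)⁻¹ * (x * (1 - x)⁻¹) ≤ 1 + (1 - y)⁻¹ * ((p : ℝ)⁻¹ * x) := by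
      have h4 : (p : ℝ)⁻¹ * (x * (1 - x)⁻¹) ≤ (p : ℝ)⁻¹ * (x * (1 - y)⁻¹) := by gcongr
      linarith
    refine h3.trans ?_
    rw [add_comm]
    exact Real.add_one_le_exp _

/-- `A ^ ω(m) ≤ C m ^ ε` -/
lemma pow_omega (A ε : ℝ) (hA : 1 ≤ A) (hε : 0 < ε) :
    ∃ C : ℝ, 0 < C ∧ ∀ m : ℕ, 1 ≤ m → A ^ m.primeFactors.card ≤ C * (m : ℝ) ^ ε := by
  obtain ⟨P, hP⟩ : ∃ P : ℕ, ∀ p : ℕ, P ≤ p → A ≤ (p : ℝ) ^ ε := by
    have h := (tendsto_rpow_atTop hε).comp tendsto_natCast_atTop_atTop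
    obtain ⟨P, hP⟩ := Filter.eventually_atTop.1 (h.eventually_ge_atTop A)
    exact ⟨P, fun p hp => hP p hp⟩
  refine ⟨A ^ P, by positivity, fun m hm => ?_⟩
  have h1 : ∀ p ∈ m.primeFactors, A ≤ (if p < P then A else 1) * (p : ℝ) ^ ε := by
    intro p hp
    have hp1 : (1 : ℝ) ≤ p := by exact_mod_cast (Nat.prime_of_mem_primeFactors hp).one_le
    split_ifs with h
    · exact le_mul_of_one_le_right (by linarith) (Real.one_le_rpow hp1 hε.le)
    · rw [one_mul]; exact hP p (not_lt.1 h)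
  have h2 : ∏ p ∈ m.primeFactors, (if p < P then A else 1) ≤ A ^ P := by
    rw [← Finset.prod_filter, Finset.prod_const]
    refine pow_le_pow_right₀ hA ?_
    have : (m.primeFactors.filter (fun p => p < P)) ⊆ Finset.range P := by
      intro p hp
      exact Finset.mem_range.2 (Finset.mem_filter.1 hp).2
    simpa using Finset.card_le_card this
  have h3 : ∏ p ∈ m.primeFactors, (p : ℝ) ^ ε ≤ (m : ℝ) ^ ε := by
    have e := Real.finsetProd_rpow m.primeFactors (fun p : ℕ => (p : ℝ))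
      (fun p _ => Nat.cast_nonneg p) ε
    rw [e]
    refine Real.rpow_le_rpow (Finset.prod_nonneg fun p _ => by positivity) ?_ hε.le
    have h6 := Nat.le_of_dvd (by omega) (Nat.prod_primeFactors_dvd m)
    have h7 : ((∏ p ∈ m.primeFactors, p : ℕ) : ℝ) ≤ (m : ℝ) := by exact_mod_cast h6
    rw [Nat.cast_prod] at h7
    exact h7
  calc A ^ m.primeFactors.card = ∏ _p ∈ m.primeFactors, A := by rw [Finset.prod_const]
    _ ≤ ∏ p ∈ m.primeFactors, ((if p < P then A else 1) * (p : ℝ) ^ ε) :=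
        Finset.prod_le_prod (fun _ _ => by linarith) h1
    _ = (∏ p ∈ m.primeFactors, (if p < P then A else 1)) * ∏ p ∈ m.primeFactors, (p : ℝ) ^ ε :=
        Finset.prod_mul_distrib
    _ ≤ A ^ P * (m : ℝ) ^ ε := by
        refine mul_le_mul h2 h3 (Finset.prod_nonneg fun p _ => by positivity) (by positivity)

theorem t_RAD : S_RAD := by
  intro ε hε
  have hs : Summable (fun n : ℕ => (n : ℝ) ^ (-(1 + ε))) :=
    Real.summable_nat_rpow.2 (by linarith)
  have hy1 : (2 : ℝ) ^ (-ε) < 1 := Real.rpow_lt_one_of_one_lt_of_neg (by norm_num) (by linarith)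
  have hy0 : 0 < (2 : ℝ) ^ (-ε) := by positivity
  set A : ℝ := (1 - (2 : ℝ) ^ (-ε))⁻¹ with hA
  have hA1 : 1 ≤ A := by
    rw [hA, one_le_inv₀ (by linarith)]
    linarith
  obtain ⟨C1, hC1, hC⟩ := pow_omega A ε hA1 hε
  set E : ℝ := Real.exp (A * ∑' n : ℕ, (n : ℝ) ^ (-(1 + ε))) with hE
  refine ⟨C1 * E, by positivity, ?_⟩
  intro m X hm hX
  have h1 := (EulerProduct.summable_and_hasSum_smoothNumbers_prod_primesBelow_tsum
    (f := ff m ε) (ff_one m ε) (fun h => ff_mul m ε h) (by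
      intro p hp
      have := (hasSum_ff m ε hε hp).summable
      simpa [Real.norm_of_nonneg (ff_nonneg m ε _)] using this) (X + 1)).2
  have h2 : HasSum ((Nat.smoothNumbers (X + 1)).indicator (ff m ε))
      (∏ p ∈ (X + 1).primesBelow, ∑' n : ℕ, ff m ε (p ^ n)) := by
    rw [← hasSum_subtype_iff_indicator]
    exact h1
  have h3 := sum_le_hasSum (Finset.Icc 1 X) (fun n _ => by
    apply Set.indicator_nonneg
    intro n _
    exact ff_nonneg m ε n) h2
  have h4 : ∀ V ∈ Finset.Icc 1 X, (1 : ℝ) / (radp m V : ℝ) ≤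
      (X : ℝ) ^ ε * (Nat.smoothNumbers (X + 1)).indicator (ff m ε) V := by
    intro V hV
    rw [Finset.mem_Icc] at hV
    have hmem : V ∈ Nat.smoothNumbers (X + 1) := by
      rw [Nat.mem_smoothNumbers']
      intro p _ hpV
      have := Nat.le_of_dvd (by omega) hpV
      omega
    rw [Set.indicator_of_mem hmem]
    unfold ff
    have hV0 : (0 : ℝ) < V := by exact_mod_cast (by omega : 0 < V)
    have hVX : (V : ℝ) ≤ X := by exact_mod_cast hV.2
    rw [← mul_div_assoc]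
    apply div_le_div_of_nonneg_right _ (by positivity)
    rw [Real.rpow_neg hV0.le, ← div_eq_mul_inv, one_le_div (by positivity)]
    exact Real.rpow_le_rpow hV0.le hVX hε.le
  have h6 : ∏ p ∈ (X + 1).primesBelow, (if p ∣ m then A else 1) ≤ A ^ m.primeFactors.card := by
    rw [← Finset.prod_filter, Finset.prod_const]
    refine pow_le_pow_right₀ hA1 (Finset.card_le_card ?_)
    intro p hp
    rw [Finset.mem_filter] at hp
    exact Nat.mem_primeFactors.2 ⟨Nat.prime_of_mem_primesBelow hp.1, hp.2, by omega⟩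
  have h5 : ∏ p ∈ (X + 1).primesBelow, ∑' n : ℕ, ff m ε (p ^ n) ≤ C1 * (m : ℝ) ^ ε * E := by
    calc ∏ p ∈ (X + 1).primesBelow, ∑' n : ℕ, ff m ε (p ^ n)
        ≤ ∏ p ∈ (X + 1).primesBelow, ((if p ∣ m then A else 1) *
            Real.exp (A * (p : ℝ) ^ (-(1 + ε)))) := by
          apply Finset.prod_le_prod
          · intro p _
            exact tsum_nonneg fun n => ff_nonneg m ε _
          · intro p hp
            exact local_le m ε hε (Nat.prime_of_mem_primesBelow hp)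
      _ = (∏ p ∈ (X + 1).primesBelow, (if p ∣ m then A else 1)) *
            Real.exp (∑ p ∈ (X + 1).primesBelow, A * (p : ℝ) ^ (-(1 + ε))) := by
          rw [Finset.prod_mul_distrib, Real.exp_sum]
      _ ≤ (C1 * (m : ℝ) ^ ε) * E := by
          refine mul_le_mul (h6.trans (hC m hm)) ?_ (Real.exp_pos _).le (by positivity)
          apply Real.exp_le_exp.2
          rw [← Finset.mul_sum]
          apply mul_le_mul_of_nonneg_left _ (by linarith)
          exact hs.sum_le_tsum _ (fun n _ => by positivity)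
  calc ∑ V ∈ Finset.Icc 1 X, (1 : ℝ) / (radp m V : ℝ)
      ≤ ∑ V ∈ Finset.Icc 1 X, (X : ℝ) ^ ε * (Nat.smoothNumbers (X + 1)).indicator (ff m ε) V :=
        Finset.sum_le_sum h4
    _ = (X : ℝ) ^ ε * ∑ V ∈ Finset.Icc 1 X, (Nat.smoothNumbers (X + 1)).indicator (ff m ε) V := by
        rw [Finset.mul_sum]
    _ ≤ (X : ℝ) ^ ε * (C1 * (m : ℝ) ^ ε * E) := by
        apply mul_le_mul_of_nonneg_left (h3.trans h5) (by positivity)
    _ = _ := by
        rw [Real.mul_rpow (by positivity) (by positivity)]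
        ring

end Pool.W335.CF
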